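import Pool.Agent.H30.FQ.Basic

/-!
# MP_70ba79_ag: module PGD of the board `fq_modules`
-/

set_option autoImplicit false

namespace Pool.Agent.H12.FQ

open SC Pool.Agent.H27.LV Pool.Agent.H30.FQ Polynomial

section

variable {k K : Type} [Field k] [CharZero k] [Field K] [Algebra k K] (v : DV k K)

include v in
lemma natCast_ne (n : ℕ) (hn : n ≠ 0) : (n : K) ≠ 0 := by
  have h : (n : K) = algebraMap k K n := by rw [map_natCast]
  rw [h, Ne, map_eq_zero]
  exact_mod_cast hn

lemma ord_natCast (n : ℕ) : v.ord (n : K) = 0 := by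
  have h : (n : K) = algebraMap k K n := by rw [map_natCast]
  rw [h, v.ord_base]

lemma logd_zero {D : Derivation k K K} {z : K} (hz : z ≠ 0) (h : ge v 0 (D z))
    (ho : v.ord z = 0) : ge v 0 (D z / (4 * z)) := by
  rcases h with h | h
  · left; rw [h, zero_div]
  by_cases h0 : D z = 0
  · left; rw [h0, zero_div]
  right
  have h4 : (4 : K) ≠ 0 := by exact_mod_cast natCast_ne v 4 (by norm_num)
  have h4' : v.ord (4 : K) = 0 := by exact_mod_cast ord_natCast v 4
  rw [v.ord_div h0 (mul_ne_zero h4 hz), v.ord_mul' h4 hz, h4', ho]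
  omega

lemma logd_pos {D : Derivation k K K} {z : K} (hz : z ≠ 0) (h : D z ≠ 0)
    (ho : v.ord (D z) = v.ord z - 1) : D z / (4 * z) ≠ 0 ∧ v.ord (D z / (4 * z)) = -1 := by
  have h4 : (4 : K) ≠ 0 := by exact_mod_cast natCast_ne v 4 (by norm_num)
  have h4' : v.ord (4 : K) = 0 := by exact_mod_cast ord_natCast v 4
  refine ⟨div_ne_zero h (mul_ne_zero h4 hz), ?_⟩
  rw [v.ord_div h (mul_ne_zero h4 hz), v.ord_mul' h4 hz, h4', ho]
  omega

end

theorem pgd (h : T_QBD) : T_PGD := by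
  intro k K _ _ _ _ v D X Y hL hQ hne
  obtain ⟨-, h2, -⟩ := h k K v D 0 0 X Y hL (by rw [hQ]; norm_num)
  obtain ⟨hX, hY, hXY⟩ := h2 rfl
  have h16 : (16 : K) ≠ 0 := by exact_mod_cast natCast_ne v 16 (by norm_num)
  have hQ0 : QQ D X Y ≠ 0 := by
    unfold QQ
    exact div_ne_zero (pow_ne_zero _ hL.g0) (mul_ne_zero (mul_ne_zero h16 hL.x0) hL.y0)
  have hreg : ∀ z : K, 0 ≤ v.ord z → ge v 0 (D z) := by
    intro z hz
    have := hL.dord.1 z hz
    simpa using this
  have hll : ge v 0 (ll D X Y) := logd_zero v hQ0 (hreg _ hQ.ge) hQ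
  have h8' : (8 : K) ≠ 0 := by exact_mod_cast natCast_ne v 8 (by norm_num)
  have hr : ge v 0 ((1 - ll D X Y) / 8) := by
    have h1 := (ge_one v).sub hll
    have h2 := (ge_const v ((8 : k)⁻¹)).mul h1
    rw [zero_add] at h2
    have h3 : algebraMap k K ((8 : k)⁻¹) * (1 - ll D X Y) = (1 - ll D X Y) / 8 := by
      rw [map_inv₀, map_ofNat]
      field_simp
    rwa [h3] at h2
  have key : ∀ x y : K, x ≠ 0 → y ≠ 0 → v.ord x ≠ 0 → v.ord y = 0 →
      v.ord (D x / (4 * x) + (D y / (4 * y) - (1 - ll D X Y) / 8 - (1 - ll D X Y) / 8)) = -1 := by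
    intro x y hx hy hox hoy
    obtain ⟨h1, h2⟩ := hL.dex x hox
    have h3 := logd_pos v hx h1 (by rw [h2]; ring)
    have h4 : ge v 0 (D y / (4 * y) - (1 - ll D X Y) / 8 - (1 - ll D X Y) / 8) :=
      ((logd_zero v hy (hreg y hoy.ge) hoy).sub hr).sub hr
    rw [(v.ord_add_eq_left h3.1 (fun hne => ?_)).2, h3.2]
    rw [h3.2]
    have := h4.resolve_left hne
    omega
  rcases hXY with h0 | h0
  · have hY0 : v.ord Y ≠ 0 := by
      rcases hne with h1 | h1
      · exact absurd h0 h1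
      · exact h1
    have := key Y X hL.y0 hL.x0 hY0 h0
    rw [← this]
    congr 1
    unfold pp qq
    ring
  · have hX0 : v.ord X ≠ 0 := by
      rcases hne with h1 | h1
      · exact h1
      · exact absurd h0 h1
    have := key X Y hL.x0 hL.y0 hX0 h0
    rw [← this]
    congr 1
    unfold pp qq
    ring

end Pool.Agent.H12.FQ
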