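import Pool.Agent.H30.FQ.Targets

/-!
# MP_70ba79_ag: module SMP of the board `fq_modules`
-/

set_option autoImplicit false

namespace Pool.Agent.H12.FQ

open SC Pool.Agent.H27.LV Pool.Agent.H30.FQ Polynomial

lemma sm_sum {k K : Type} [Field k] [Field K] [Algebra k K] {w : DV k K → ℤ} {j : ℕ} {ι : Type*}
    (s : Finset ι) (f : ι → K) (h : ∀ i ∈ s, Sm w j (f i)) : Sm w j (∑ i ∈ s, f i) :=
  fun v => ge_sum v s f _ fun i hi => h i hi v

theorem smp : T_SMP := by
  intro k K _ _ _ _ w hw
  refine ⟨?_, ?_, ?_, ?_, ?_⟩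
  · intro j f hf
    refine ⟨by simp, fun i hi => ?_⟩
    rw [coeff_C]
    split_ifs with h
    · subst h
      simpa using hf
    · exact sm_zero w _
  · refine ⟨natDegree_X_le, fun i hi => ?_⟩
    rw [coeff_X]
    split_ifs with h
    · subst h
      have := sm_natCast (k := k) (K := K) w 1
      simpa using this
    · exact sm_zero w _
  · intro i j p q hp hq
    refine ⟨natDegree_mul_le.trans (add_le_add hp.1 hq.1), fun n hn => ?_⟩
    rw [coeff_mul]
    refine sm_sum _ _ fun x hx => ?_
    rw [Finset.HasAntidiagonal.mem_antidiagonal] at hx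
    by_cases h1 : i < x.1
    · rw [coeff_eq_zero_of_natDegree_lt (lt_of_le_of_lt hp.1 h1), zero_mul]
      exact sm_zero w _
    by_cases h2 : j < x.2
    · rw [coeff_eq_zero_of_natDegree_lt (lt_of_le_of_lt hq.1 h2), mul_zero]
      exact sm_zero w _
    push Not at h1 h2
    have h3 := (hp.2 x.1 h1).mul (hq.2 x.2 h2)
    have h4 : i - x.1 + (j - x.2) = i + j - n := by omega
    rwa [h4] at h3
  · intro i p q hp hq
    refine ⟨(natDegree_add_le p q).trans (max_le hp.1 hq.1), fun n hn => ?_⟩
    rw [coeff_add]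
    exact (hp.2 n hn).add (hq.2 n hn)
  · intro i j p hij hp
    refine ⟨hp.1.trans hij, fun n hn => ?_⟩
    by_cases h : n ≤ i
    · exact (hp.2 n h).mono hw (by omega)
    · rw [coeff_eq_zero_of_natDegree_lt (lt_of_le_of_lt hp.1 (by omega))]
      exact sm_zero w _

end Pool.Agent.H12.FQ
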