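import Pool.Agent.H30.FQ.Basic

/-!
# MP_70ba79_ag: module ZHI of the board `fq_modules`
-/

set_option autoImplicit false

namespace Pool.Agent.H12.FQ

open SC Pool.Agent.H27.LV Pool.Agent.H30.FQ Polynomial

theorem zhi (h1 : T_QBD) (h2 : T_PGD) (h3 : T_HHI) : T_ZHI := by
  intro k K _ _ _ _ _ _ htr S D w X Y hD hc hDu hg hO hw hwf
  obtain ⟨hA, -, hC⟩ := h3 k K htr
  have hXf := (hC S X).2
  have hYf := (hC S Y).2
  have hpf := (hA (pp D X Y + qq D X Y)).2.1
  unfold ZZ hh
  have e1 : ∑ᶠ v : DV k K, oo S X v + ∑ᶠ v : DV k K, oo S Y v =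
      ∑ᶠ v : DV k K, (oo S X v + oo S Y v) := (finsum_add_distrib hXf hYf).symm
  have e2 : 4 * ∑ᶠ v : DV k K, max 0 (-(v.ord (pp D X Y + qq D X Y))) =
      ∑ᶠ v : DV k K, 4 * max 0 (-(v.ord (pp D X Y + qq D X Y))) := mul_finsum _ _
  have e3 : 20 * ∑ᶠ v : DV k K, w v = ∑ᶠ v : DV k K, 20 * w v := mul_finsum _ _
  have f2 : (Function.support fun v : DV k K =>
      4 * max 0 (-(v.ord (pp D X Y + qq D X Y)))).Finite :=
    hpf.subset fun v hv => by
      intro h0
      exact hv (by show 4 * max 0 (-(v.ord (pp D X Y + qq D X Y))) = 0; rw [h0, mul_zero])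
  have f3 : (Function.support fun v : DV k K => 20 * w v).Finite :=
    hwf.subset fun v hv => by
      intro h0
      exact hv (by show 20 * w v = 0; rw [h0, mul_zero])
  have f1 : (Function.support fun v : DV k K => oo S X v + oo S Y v).Finite :=
    (hXf.union hYf).subset fun v hv => by
      by_contra h0
      simp only [Set.mem_union, Set.mem_ofPred_eq, not_or, not_not] at h0
      exact hv (by show oo S X v + oo S Y v = 0; rw [h0.1, h0.2, add_zero])
  rw [e1, e2, e3, ← finsum_add_distrib f2 f3]
  refine finsum_le_finsum' f1 ((f2.union f3).subset ?_) fun v => ?_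
  · intro v hv
    by_contra h0
    simp only [Set.mem_union, Function.mem_support, not_or, not_not] at h0
    exact hv (by
      show 4 * max 0 (-(v.ord (pp D X Y + qq D X Y))) + 20 * w v = 0
      rw [h0.1, h0.2, add_zero])
  · have hwv : 0 ≤ w v := by
      rw [hw v]
      exact add_nonneg (hc v) (abs_nonneg _)
    have hm : 0 ≤ max 0 (-(v.ord (pp D X Y + qq D X Y))) := le_max_left _ _
    show oo S X v + oo S Y v ≤ 4 * max 0 (-(v.ord (pp D X Y + qq D X Y))) + 20 * w v
    by_cases hv : v ∈ S
    · have a1 : oo S X v = 0 := by unfold oo; rw [if_pos hv]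
      have a2 : oo S Y v = 0 := by unfold oo; rw [if_pos hv]
      rw [a1, a2]
      omega
    · have a1 : oo S X v = v.ord X := by unfold oo; rw [if_neg hv]
      have a2 : oo S Y v = v.ord Y := by unfold oo; rw [if_neg hv]
      have hL := loc_out htr hD hc hDu hg hO hv
      obtain ⟨b0, b1, b2⟩ := h1 k K v D (cc S D v) (w v) X Y hL (hw v)
      rw [a1, a2]
      rcases eq_or_lt_of_le b0 with b | b
      · obtain ⟨d1, d2, d3⟩ := b1 b.symm
        have hcv : cc S D v = 0 := by
          have := hw v
          have h4 := hc v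
          have h5 := abs_nonneg (v.ord (QQ D X Y))
          omega
        have hQv : v.ord (QQ D X Y) = 0 := by
          have := hw v
          have h5 : |v.ord (QQ D X Y)| = 0 := by omega
          exact abs_eq_zero.1 h5
        by_cases h0 : v.ord X ≠ 0 ∨ v.ord Y ≠ 0
        · rw [hcv] at hL
          have := h2 k K v D X Y hL hQv h0
          rw [this]
          have : max 0 (-(-1 : ℤ)) = 1 := by norm_num
          omega
        · push Not at h0
          rw [h0.1, h0.2]
          omega
      · obtain ⟨d1, d2⟩ := b2 (by omega)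
        omega

end Pool.Agent.H12.FQ
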